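import Pool.Agent.K9h87.DC.Lower
import Pool.Agent.K9h87.DC.Upper

/-!
# A noncomputable c.e. degree which is a degree of topological categoricity (MP_55a818_lc, Q2)

The complete c.e. degree is the degree of topological categoricity of the discrete space `ℕ`.

* `CMS`: a complete metric space with a dense sequence of special points whose distances are
  uniformly computable reals; `CompMapIn a M N h`: `h` is `a`-computable (one functional recursive
  in `a` sends every fast Cauchy name of `x` to a fast Cauchy name of `h x`); `Cat X a`: between
  any two computable presentations of `X` there is an `a`-computable homeomorphism;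
  `CatBoth X a`: there is one which is `a`-computable together with its inverse. These are the
  definitions of the starting files. `Red x y`: `x` is recursive in `y`.
* `IsDegree X d`: `X` is `d`-categorical and `d` is recursive in every `a` such that `X` is
  `a`-categorical; `IsDegreeBoth` is the same notion for `CatBoth`.
-/

set_option autoImplicit false

namespace Pool.Agent.Results.MP_55a818_lc.DiscreteSpaceDegree

open Pool.Agent.Helper583.TT (CMS)
open Pool.Agent.Helper583.TC (Red)
open Pool.Agent.H109R3.TC (Cat CatBoth)

/-- the characteristic function of a set -/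
noncomputable def chi (A : ℕ → Prop) (n : ℕ) : ℕ :=
  open Classical in if A n then 1 else 0

/-- `X` is a computable Polish space. -/
def ComputablePolish (X : Type) [TopologicalSpace X] : Prop := ∃ M : CMS, Nonempty (M.Y ≃ₜ X)

/-- The Turing degree of `d` is the degree of topological categoricity of `X`. -/
def IsDegree (X : Type) [TopologicalSpace X] (d : ℕ → ℕ) : Prop :=
  Cat X d ∧ ∀ a : ℕ → ℕ, Cat X a → Red d a

/-- The same notion, when the homeomorphism and its inverse are required to be computable. -/
def IsDegreeBoth (X : Type) [TopologicalSpace X] (d : ℕ → ℕ) : Prop :=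
  CatBoth X d ∧ ∀ a : ℕ → ℕ, CatBoth X a → Red d a

/-- There is a noncomputable c.e. set `A`, to which every c.e. set is Turing reducible, such that
the Turing degree of `A` is the degree of topological categoricity of the discrete space `ℕ`, for
both notions of categoricity. -/
theorem result : ∃ A : ℕ → Prop, REPred A ∧ ¬ ComputablePred A ∧
    (∀ B : ℕ → Prop, REPred B → Red (chi B) (chi A)) ∧ ComputablePolish ℕ ∧
    IsDegree ℕ (chi A) ∧ IsDegreeBoth ℕ (chi A) := by
  have hchi : chi = Pool.Agent.K9h87.DC.chi := rfl
  have hup : CatBoth ℕ (chi Pool.Agent.K9h87.DC.K0) := Pool.Agent.K9h87.DC.upper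
  refine ⟨Pool.Agent.K9h87.DC.K0, Pool.Agent.K9h87.DC.K0_re,
    Pool.Agent.K9h87.DC.K0_not_computable, fun B hB => ?_,
    ⟨Pool.Agent.K9h87.DC.Std, Pool.Agent.K9h87.DC.Std_homeo⟩,
    ⟨hup.cat, fun a ha => Pool.Agent.K9h87.DC.lower ha⟩,
    ⟨hup, fun a ha => Pool.Agent.K9h87.DC.lower ha.cat⟩⟩
  obtain ⟨R, hR, hRB⟩ := Pool.Agent.K9h87.DC.sigma_of_re hB
  have h := Pool.Agent.K9h87.DC.ri_sigma hR
  have he : chi B = fun n => Pool.Agent.K9h87.DC.chi (fun n => ∃ s, R n s = true) n := by
    funext n
    exact Pool.Agent.K9h87.DC.chi_congr (hRB n)
  rw [he]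
  exact h

end Pool.Agent.Results.MP_55a818_lc.DiscreteSpaceDegree
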